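import Pool.Agent.H7.HD.Targets2
import Pool.Agent.H3.HD.Iter

/-!
# MP_e37c09_lc, module UV: Fodor's theorem at ordinals of uncountable cofinality
-/

open Ordinal Cardinal Order Set

universe u

namespace Pool.Agent.H2.HD.UV

open _root_.HD

/-- a strictly increasing cofinal sequence of length `cof α` -/
theorem exists_seq {α : Ordinal.{u}} (hlim : IsSuccLimit α) :
    ∃ g : Ordinal.{u} → Ordinal.{u}, (∀ i < α.cof.ord, g i < α) ∧
      (∀ i < α.cof.ord, ∀ i' < α.cof.ord, i < i' → g i < g i') ∧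
      ∀ y < α, ∃ i < α.cof.ord, y < g i := by
  classical
  obtain ⟨f, hf⟩ := exists_isFundamentalSeq (o := α) rfl
  refine ⟨fun i => if h : i < α.cof.ord then (f ⟨i, h⟩).1 else 0, ?_, ?_, ?_⟩
  · intro i hi
    simp only [hi, dif_pos]
    exact (f ⟨i, hi⟩).2
  · intro i hi i' hi' h
    simp only [hi, hi', dif_pos]
    have h3 : (⟨i, hi⟩ : Iio α.cof.ord) < ⟨i', hi'⟩ := h
    exact hf.strictMono h3
  · intro y hy
    obtain ⟨_, ⟨i, rfl⟩, hi⟩ := hf.isCofinal_range ⟨y + 1, hlim.add_one_lt hy⟩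
    refine ⟨i.1, i.2, ?_⟩
    have h1 : i.1 < α.cof.ord := i.2
    simp only [h1, dif_pos]
    have h2 : y + 1 ≤ (f i).1 := hi
    exact lt_of_lt_of_le (_root_.lt_add_one y) h2

theorem X : T_UV.{u} := by
  intro μ α hα X h hpos hreg
  have hlim : IsSuccLimit α := (Ordinal.one_lt_cof_iff).1 (Cardinal.one_lt_aleph0.trans hα)
  by_contra hcon
  push Not at hcon
  have h1 : ∀ a < α, ∃ C : Set Ordinal.{u}, Clb α C ∧ ∀ b < α, b ∈ C → b ∈ X → h b < a →
      ¬ Cf μ b := by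
    intro a ha
    have h2 := hcon a ha
    unfold Pos at h2
    push Not at h2
    obtain ⟨C, hC, h3⟩ := h2
    exact ⟨C, hC, fun b hb hbC hbX hba => h3 b hb hbC ⟨hbX, hba⟩⟩
  choose! C hC using h1
  obtain ⟨g, hg1, hg2, hg3⟩ := exists_seq hlim
  have hνlim : IsSuccLimit α.cof.ord := Cardinal.isSuccLimit_ord hα.le
  have hD : Clb α {x | 0 < x ∧ (∀ y < x, ∃ i < α.cof.ord, y < g i ∧ g i < x) ∧
      ∀ i < α.cof.ord, g i < x → x ∈ C (g i)} := by
    refine ⟨?_, ?_⟩
    · intro a ha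
      have hstep : ∀ b < α, ∃ b' < α, b < b' ∧ ∃ i < α.cof.ord, b < g i ∧ g i < b' ∧
          ∀ i' ≤ i, ∃ c ∈ C (g i'), b < c ∧ c < b' := by
        intro b hb
        obtain ⟨i, hi, hbi⟩ := hg3 b hb
        have hi1 : i + 1 < α.cof.ord := hνlim.add_one_lt hi
        have hcard : (i + 1).card < α.cof := Cardinal.lt_ord.1 hi1
        have h2 : ∀ i' < i + 1, ∃ c < α, b < c ∧ c ∈ C (g i') := fun i' hi' =>
          (hC (g i') (hg1 i' (hi'.trans hi1))).1.unb b hb
        choose! c hc using h2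
        obtain ⟨s, hs, hs2⟩ := Pool.Agent.H3.HD.exists_bound hcard c (fun i' hi' => (hc i' hi').1)
        refine ⟨max (s + 1) (g i + 1), max_lt (hlim.add_one_lt hs) (hlim.add_one_lt (hg1 i hi)),
          hbi.trans (lt_of_lt_of_le (_root_.lt_add_one _) (le_max_right _ _)), i, hi, hbi,
          lt_of_lt_of_le (_root_.lt_add_one _) (le_max_right _ _), ?_⟩
        intro i' hi'
        have h3 : i' < i + 1 := lt_of_le_of_lt hi' (_root_.lt_add_one i)
        exact ⟨c i', (hc i' h3).2.2, (hc i' h3).2.1,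
          lt_of_lt_of_le (lt_of_le_of_lt (hs2 i' h3) (_root_.lt_add_one s)) (le_max_left _ _)⟩
      obtain ⟨x, hx, s, hs0, hsx, hsP, hsy⟩ := Pool.Agent.H3.HD.exists_iter hα _ hstep a ha
      have hx0 : 0 < x := (zero_le (a := s 0)).trans_lt (hsx 0)
      refine ⟨x, hx, hs0 ▸ hsx 0, hx0, ?_, ?_⟩
      · intro y hy
        obtain ⟨n, hn⟩ := hsy y hy
        obtain ⟨i, hi, h3, h4, _⟩ := hsP n
        exact ⟨i, hi, hn.trans h3, h4.trans (hsx _)⟩
      · intro i hi hix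
        refine (hC (g i) (hg1 i hi)).1.cls x hx hx0 ?_
        intro y hy
        obtain ⟨n, hn⟩ := hsy (max y (g i)) (max_lt hy hix)
        obtain ⟨k, hk, h3, h4, h5⟩ := hsP n
        have hik : i ≤ k := by
          by_contra hki
          push Not at hki
          have h6 := hg2 k hk i hi hki
          exact absurd ((le_max_right y (g i)).trans_lt (hn.trans h3)) (not_lt.2 h6.le)
        obtain ⟨c, hc, h6, h7⟩ := h5 i hik
        exact ⟨c, h7.trans (hsx _), (le_max_left y (g i)).trans_lt (hn.trans h6), hc⟩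
    · intro x hx hx0 h2
      refine ⟨hx0, ?_, ?_⟩
      · intro y hy
        obtain ⟨z, hz, hyz, _, hz2, _⟩ := h2 y hy
        obtain ⟨i, hi, h3, h4⟩ := hz2 y hyz
        exact ⟨i, hi, h3, h4.trans hz⟩
      · intro i hi hix
        refine (hC (g i) (hg1 i hi)).1.cls x hx hx0 ?_
        intro y hy
        obtain ⟨z, hz, hyz, _, _, hz3⟩ := h2 (max y (g i)) (max_lt hy hix)
        exact ⟨z, hz, (le_max_left y (g i)).trans_lt hyz, hz3 i hi ((le_max_right y (g i)).trans_lt hyz)⟩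
  obtain ⟨b, hb, ⟨hb0, hb1, hb2⟩, hbX, hbcf⟩ := hpos _ hD
  obtain ⟨i, hi, h3, h4⟩ := hb1 (h b) (hreg b hbX hb hb0)
  exact (hC (g i) (hg1 i hi)).2 b hb (hb2 i hi h4) hbX h3 hbcf

end Pool.Agent.H2.HD.UV
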