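import Pool.Agent.H7.HD.Targets2
import Pool.Agent.H3.HD.Iter

/-!
# MP_e37c09_lc, module YF: the argument of Solovay at ordinals of large cofinality
-/

open Ordinal Cardinal Order Set
open scoped ZFSet

universe u

namespace Pool.Agent.H2.HD.YF

open _root_.HD

/-- a strictly increasing cofinal map preserves the cofinality -/
theorem cof_eq {x y : Ordinal.{u}} (F : Ordinal.{u} → Ordinal.{u})
    (h1 : ∀ a b, a < b → b < x → F a < F b) (h2 : ∀ a < x, F a < y)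
    (h3 : ∀ z < y, ∃ a < x, z < F a) : x.cof = y.cof := by
  let G : Iio x → Iio y := fun a => ⟨F a.1, h2 a.1 a.2⟩
  have hG : StrictMono G := fun a b hab => h1 a.1 b.1 hab b.2
  have hc : IsCofinal (range G) := fun z => by
    obtain ⟨a, ha, h⟩ := h3 z.1 z.2
    exact ⟨G ⟨a, ha⟩, ⟨_, rfl⟩, h.le⟩
  have h := Order.cof_congr_of_strictMono hG hc
  rw [Ordinal.cof_Iio, Ordinal.cof_Iio, ← Ordinal.lift_cof, ← Ordinal.lift_cof] at h
  exact Cardinal.lift_injective h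

/-- `Jo j` is strictly increasing -/
theorem J_lt {δ η θ : Ordinal.{u}} {j : ZFSet.{u} → ZFSet.{u}} (h : Emb δ η θ j)
    {a b : Ordinal.{u}} (hab : a < b) (hb : b < η) : Jo j a < Jo j b :=
  (h.lt_iff (hab.trans hb) hb).2 hab

theorem kcof0 {δ η θ : Ordinal.{u}} {j : ZFSet.{u} → ZFSet.{u}} {M : Cardinal.{u}}
    {κ γ : Ordinal.{u}} {f : ZFSet.{u}} (hs : Sol2 δ η θ j M κ γ f) : ℵ₀ < κ.cof := by
  have : ω < κ.cof.ord := lt_of_lt_of_le hs.dom hs.kcof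
  rwa [Cardinal.lt_ord, Ordinal.card_omega0] at this

theorem klim {δ η θ : Ordinal.{u}} {j : ZFSet.{u} → ZFSet.{u}} {M : Cardinal.{u}}
    {κ γ : Ordinal.{u}} {f : ZFSet.{u}} (hs : Sol2 δ η θ j M κ γ f) : IsSuccLimit κ :=
  (Ordinal.one_lt_cof_iff).1 (Cardinal.one_lt_aleph0.trans (kcof0 hs))

theorem back (hXE : T_XE.{u}) {δ η θ : Ordinal.{u}} {j : ZFSet.{u} → ZFSet.{u}}
    {M : Cardinal.{u}} {κ γ : Ordinal.{u}} {f : ZFSet.{u}} (hs : Sol2 δ η θ j M κ γ f)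
    {ρ : Ordinal.{u}} (hρ1 : ∀ x < κ, Jo j x < ρ) (hρ2 : ∀ y < ρ, ∃ x < κ, y < Jo j x)
    {i0 : Ordinal.{u}} (hi0 : i0 < γ) : Pos M.ord ρ (fib (j f) (Jo j i0)) := by
  intro C hC
  have hK := kcof0 hs
  have hE : Clb κ {x | 0 < x ∧ ∀ ξ < x, ∃ ξ' < x, ∃ c ∈ C, Jo j ξ < c ∧ c < Jo j ξ'} := by
    constructor
    · intro a ha
      have hstep : ∀ b < κ, ∃ b' < κ, b < b' ∧ ∃ c ∈ C, Jo j b < c ∧ c < Jo j b' := by
        intro b hb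
        obtain ⟨c, hc1, hc2, hc3⟩ := hC.unb _ (hρ1 b hb)
        obtain ⟨ζ, hζ1, hζ2⟩ := hρ2 c hc1
        refine ⟨ζ, hζ1, ?_, c, hc3, hc2, hζ2⟩
        exact (hs.emb.lt_iff (hb.trans hs.kη) (hζ1.trans hs.kη)).1 (hc2.trans hζ2)
      obtain ⟨x, hx, s, hs0, hsx, hsP, hsy⟩ := Pool.Agent.H3.HD.exists_iter hK _ hstep a ha
      refine ⟨x, hx, hs0 ▸ hsx 0, lt_of_le_of_lt bot_le (hsx 0), ?_⟩
      intro ξ hξ
      obtain ⟨n, hn⟩ := hsy ξ hξ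
      obtain ⟨c, hc, h1, h2⟩ := hsP n
      exact ⟨s (n + 1), hsx _, c, hc, (J_lt hs.emb hn ((hsx n).trans (hx.trans hs.kη))).trans h1,
        h2⟩
    · intro x hx hx0 h
      refine ⟨hx0, fun ξ hξ => ?_⟩
      obtain ⟨z, hz, hξz, _, hz2⟩ := h ξ hξ
      obtain ⟨ξ', h1, c, hc, h2, h3⟩ := hz2 ξ hξz
      exact ⟨ξ', h1.trans hz, c, hc, h2, h3⟩
  obtain ⟨x, hx1, hx2, hx3, hx4⟩ := hs.pos i0 hi0 _ hE
  have hxη : x < η := hx1.trans hs.kη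
  obtain ⟨h1, h2⟩ := hXE δ η θ j hs.emb x hxη M hs.mreg hs.mlt hx4
  refine ⟨Jo j x, hρ1 x hx1, ?_, ?_, h2⟩
  · refine hC.cls _ (hρ1 x hx1) ?_ ?_
    · have := J_lt hs.emb hx2.1 hxη
      rwa [hs.emb.Jo_zero] at this
    · intro y hy
      obtain ⟨ξ, hξ1, hξ2⟩ := h1 y hy
      obtain ⟨ξ', hξ', c, hc1, hc2, hc3⟩ := hx2.2 ξ hξ1
      exact ⟨c, hc3.trans (J_lt hs.emb hξ' hxη), hξ2.trans hc2, hc1⟩
  · exact (hs.emb.opair hxη (hi0.trans hs.γη) hs.fη).1 hx3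

theorem forth (hXE : T_XE.{u}) {δ η θ : Ordinal.{u}} {j : ZFSet.{u} → ZFSet.{u}}
    {M : Cardinal.{u}} {κ γ : Ordinal.{u}} {f : ZFSet.{u}} (hs : Sol2 δ η θ j M κ γ f)
    {ρ : Ordinal.{u}} (hρ1 : ∀ x < κ, Jo j x < ρ) (hρ2 : ∀ y < ρ, ∃ x < κ, y < Jo j x)
    {i : Ordinal.{u}} (hi : i < Jo j γ) (hp : Pos M.ord ρ (fib (j f) i)) :
    ∃ i0 < γ, i = Jo j i0 := by
  have hj := hs.emb
  have hKlim : IsSuccLimit κ := klim hs
  have hC : Clb ρ {y | 0 < y ∧ ∀ z < y, ∃ ξ < κ, z < Jo j ξ ∧ Jo j ξ < y} := by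
    constructor
    · intro a ha
      obtain ⟨x, hx1, hx2⟩ := hρ2 a ha
      have hn : ∀ n : ℕ, x + n < κ := by
        intro n
        induction n with
        | zero => simpa using hx1
        | succ n ih =>
          have := hKlim.succ_lt ih
          rw [Order.succ_eq_add_one, add_assoc] at this
          exact_mod_cast this
      obtain ⟨xω, hxω, hxω2⟩ : ∃ w < κ, ∀ n : ℕ, x + n ≤ w := by
        refine ⟨⨆ n : ℕ, x + (n : Ordinal.{u}), ?_, fun n =>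
          Ordinal.le_iSup (fun n : ℕ => x + (n : Ordinal.{u})) n⟩
        refine lift_iSup_lt_of_lt_cof ?_ hn
        simpa using kcof0 hs
      have hle : ∀ n : ℕ, Jo j (x + n) ≤ ⨆ n : ℕ, Jo j (x + n) := fun n =>
        Ordinal.le_iSup (fun n : ℕ => Jo j (x + n)) n
      have hlt : ∀ n : ℕ, Jo j (x + n) < Jo j (x + (n + 1 : ℕ)) := fun n => by
        refine J_lt hj ?_ ((hn _).trans hs.kη)
        gcongr
        exact Nat.lt_succ_self n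
      refine ⟨⨆ n : ℕ, Jo j (x + n), ?_, ?_, ?_, ?_⟩
      · refine lt_of_le_of_lt ?_ (hρ1 _ hxω)
        refine Ordinal.iSup_le fun n => ?_
        rw [hj.le_iff ((hn n).trans hs.kη) (hxω.trans hs.kη)]
        exact hxω2 n
      · refine lt_of_lt_of_le hx2 ?_
        have := hle 0
        simpa using this
      · refine lt_of_le_of_lt bot_le (lt_of_lt_of_le (hlt 0) (hle 1))
      · intro z hz
        obtain ⟨n, h⟩ := Ordinal.lt_iSup_iff.1 hz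
        exact ⟨x + n, hn n, h, lt_of_lt_of_le (hlt n) (hle (n + 1))⟩
    · intro x hx1 hx2 hx3
      refine ⟨hx2, fun w hw => ?_⟩
      obtain ⟨z, hz1, hz2, hz3, hz4⟩ := hx3 w hw
      obtain ⟨ξ, h1, h2, h3⟩ := hz4 w hz2
      exact ⟨ξ, h1, h2, h3.trans hz1⟩
  obtain ⟨y, hy1, ⟨hy0, hy2⟩, hy3, hy4⟩ := hp _ hC
  have hex : ∃ x, x < κ ∧ y ≤ Jo j x := by
    obtain ⟨x, h1, h2⟩ := hρ2 y hy1
    exact ⟨x, h1, h2.le⟩
  obtain ⟨x, ⟨hx1, hx2⟩, hmin⟩ : ∃ x, (x < κ ∧ y ≤ Jo j x) ∧ ∀ ξ < x, Jo j ξ < y := by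
    refine ⟨sInf {x | x < κ ∧ y ≤ Jo j x}, csInf_mem (s := {x | x < κ ∧ y ≤ Jo j x}) hex,
      fun ξ hξ => ?_⟩
    by_contra h
    push Not at h
    have h0 := csInf_mem (s := {x | x < κ ∧ y ≤ Jo j x}) hex
    have : sInf {x | x < κ ∧ y ≤ Jo j x} ≤ ξ :=
      csInf_le' (s := {x | x < κ ∧ y ≤ Jo j x}) ⟨hξ.trans h0.1, h⟩
    exact absurd hξ (not_lt.2 this)
  have hxη : x < η := hx1.trans hs.kη
  have hcof : ∀ z < y, ∃ a < x, z < Jo j a := by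
    intro z hz
    obtain ⟨ξ, h1, h2, h3⟩ := hy2 z hz
    refine ⟨ξ, ?_, h2⟩
    by_contra h
    push Not at h
    have := (hj.le_iff hxη (h1.trans hs.kη)).2 h
    exact absurd (hx2.trans this) (not_le.2 h3)
  have hCf : Cf M.ord x := by
    have := cof_eq (Jo j) (fun a b hab hb => J_lt hj hab (hb.trans hxη)) hmin hcof
    unfold Cf at hy4 ⊢
    rw [this]
    exact hy4
  obtain ⟨h1, h2⟩ := hXE δ η θ j hj x hxη M hs.mreg hs.mlt hCf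
  have hyx : y = Jo j x := by
    refine le_antisymm hx2 ?_
    by_contra h
    push Not at h
    obtain ⟨ξ, h3, h4⟩ := h1 y h
    exact absurd (hmin ξ h3) (not_lt.2 h4.le)
  rw [hyx] at hy3
  have hyp : ZFSet.pair (Jo j x).toZFSet i.toZFSet ∈ j f := hy3
  -- pull back
  have hL1 : Loc.{u} fun v => ∃ i ∈ v 0, ZFSet.pair (v 1) i ∈ v 2 :=
    Loc.exMem (R := fun i v => ZFSet.pair (v 1) i ∈ v 2) 0 (loc_pmem 2 0 3)
  have hmem : ∀ z ∈ [γ.toZFSet, x.toZFSet, f], z ∈ V_ η := by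
    simp only [List.mem_cons, List.not_mem_nil, or_false, forall_eq_or_imp, forall_eq]
    exact ⟨Gd.ord.2 hs.γη, Gd.ord.2 hxη, hs.fη⟩
  have t1 := hj.trl hL1 [γ.toZFSet, x.toZFSet, f] hmem
  have h3 : ∃ i ∈ γ.toZFSet, ZFSet.pair x.toZFSet i ∈ f := by
    refine t1.2 ⟨i.toZFSet, ?_, ?_⟩
    · show i.toZFSet ∈ j γ.toZFSet
      rw [hj.ord hs.γη]
      exact toZFSet_mem_toZFSet_iff.2 hi
    · show ZFSet.pair (j x.toZFSet) i.toZFSet ∈ j f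
      rw [hj.ord hxη]
      exact hyp
  obtain ⟨_, h4, h5⟩ := h3
  obtain ⟨a, ha, rfl⟩ := mem_toZFSet_iff.1 h4
  refine ⟨a, ha, ?_⟩
  have hL2 : Loc.{u} fun v => ∀ i ∈ v 0, ∀ i' ∈ v 0, ZFSet.pair (v 1) i ∈ v 2 →
      ZFSet.pair (v 1) i' ∈ v 2 → i = i' :=
    Loc.allMem (R := fun i v => ∀ i' ∈ v 0, ZFSet.pair (v 1) i ∈ v 2 →
      ZFSet.pair (v 1) i' ∈ v 2 → i = i') 0
      (Loc.allMem (R := fun i' v => ZFSet.pair (v 2) (v 0) ∈ v 3 →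
        ZFSet.pair (v 2) i' ∈ v 3 → v 0 = i') 1
        ((loc_pmem 3 1 4).imp ((loc_pmem 3 0 4).imp (Loc.eq 1 0))))
  have t2 := hj.trl hL2 [γ.toZFSet, x.toZFSet, f] hmem
  have h6 := t2.1 (fun i _ i' _ h h' => hs.fn _ _ _ h h')
  have h7 : ∀ i ∈ j γ.toZFSet, ∀ i' ∈ j γ.toZFSet, ZFSet.pair (j x.toZFSet) i ∈ j f →
      ZFSet.pair (j x.toZFSet) i' ∈ j f → i = i' := h6
  rw [hj.ord hs.γη, hj.ord hxη] at h7
  have haη : a < η := ha.trans hs.γη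
  have h8 := h7 i.toZFSet (toZFSet_mem_toZFSet_iff.2 hi) (Jo j a).toZFSet
    (toZFSet_mem_toZFSet_iff.2 (J_lt hj ha hs.γη)) hyp
    ((hj.opair hxη haη hs.fη).1 h5)
  exact toZFSet_injective h8

theorem X (hXE : T_XE.{u}) : T_YF.{u} := by
  intro δ η θ j M κ γ f hs ρ hρ1 hρ2 i hi
  constructor
  · exact forth hXE hs hρ1 hρ2 hi
  · rintro ⟨i0, hi0, rfl⟩
    exact back hXE hs hρ1 hρ2 hi0

end Pool.Agent.H2.HD.YF
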