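import Pool.Agent.H7.HD.Targets2
import Pool.Agent.H87.HD.XI

/-!
# MP_e37c09_lc, module YI: second step of the covering argument, at ordinals of large cofinality
-/

open Ordinal Cardinal Order Set
open scoped ZFSet

universe u

namespace Pool.Agent.H2.HD.YI

open _root_.HD Pool.Agent.H87.HD.XI

theorem X (hLA : T_LA.{u}) (hLB : T_LB.{u}) (hVG : T_VG.{u}) (hDA : T_DA.{u})
    (hYF : T_YF.{u}) : T_YI.{u} := by
  intro δ η θ j M κ γ f hs α hlim hcof hαγ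
  obtain ⟨B, hB, hBα, hBc⟩ := hVG α hlim
  have hj := hs.emb
  have hαη : α < η := lt_of_le_of_lt hαγ hs.γη
  have hMη : M.ord < η := hs.mlt.trans hj.dlt
  set p : ZFSet.{u} := ZFSet.prod δ.toZFSet γ.toZFSet with hp
  have hpη : p ∈ V_ η := hj.gd.prod (Gd.ord.2 hj.dlt) (Gd.ord.2 hs.γη)
  let SM : Ordinal.{u} → Prop := fun ρ => Sm ρ.toZFSet δ.toZFSet p M.ord.toZFSet f γ.toZFSet
  let UN : Ordinal.{u} → Ordinal.{u} → Prop := fun ρ β => Un β.toZFSet M.ord.toZFSet ρ.toZFSet f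
  have hch : ∀ β, ∃ ρ, (∃ ρ' < κ, SM ρ' ∧ UN ρ' β) → (ρ < κ ∧ SM ρ ∧ UN ρ β) := by
    intro β
    by_cases h : ∃ ρ' < κ, SM ρ' ∧ UN ρ' β
    · obtain ⟨ρ, h⟩ := h
      exact ⟨ρ, fun _ => h⟩
    · exact ⟨0, fun h' => absurd h' h⟩
  choose r hr using hch
  let T : Ordinal.{u} → Set Ordinal.{u} := fun β =>
    {i | (∃ ρ' < κ, SM ρ' ∧ UN ρ' β) ∧ i < β ∧ Pos M.ord (r β) (fib f i)}
  let S : Set Ordinal.{u} := ⋃ β ∈ B, T β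
  have hSα : S ⊆ Iio α := by
    intro i hi
    simp only [S, mem_iUnion] at hi
    obtain ⟨β, hβ, hi⟩ := hi
    exact hi.2.1.trans (hBα β hβ)
  have hℵ : ℵ₀ ≤ α.cof := Ordinal.aleph0_le_cof_iff.2 (Ordinal.one_lt_cof_iff.2 hlim)
  have hTc : ∀ β ∈ B, #(T β) ≤ Cardinal.lift.{u + 1} α.cof := by
    intro β hβ
    by_cases h : ∃ ρ' < κ, SM ρ' ∧ UN ρ' β
    · obtain ⟨τ, h1, h2⟩ := sm_cov (X := T β) (hr β h).2.1 fun i hi =>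
        ⟨hi.2.1.trans ((hBα β hβ).trans_le hαγ), hi.2.2⟩
      refine h2.trans ?_
      rw [Cardinal.lift_le]
      exact (Cardinal.lt_ord.1 (h1.trans_le hcof)).le
    · have : T β = ∅ := by
        ext i
        simp only [T, mem_ofPred_eq, mem_empty_iff_false, iff_false]
        exact fun h' => h h'.1
      rw [this]
      simp
  have hBc' : #B ≤ Cardinal.lift.{u + 1} α.cof := by
    have := cov_iff.1 hBc
    rwa [Cardinal.card_ord] at this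
  have hSc : #S ≤ Cardinal.lift.{u + 1} α.cof := by
    refine (Cardinal.mk_biUnion_le T B).trans ?_
    calc #B * ⨆ x : B, #(T x.1) ≤ Cardinal.lift.{u + 1} α.cof * Cardinal.lift.{u + 1} α.cof := by
          refine mul_le_mul' hBc' ?_
          exact ciSup_le' fun x => hTc x.1 x.2
      _ = Cardinal.lift.{u + 1} α.cof := by
          rw [Cardinal.mul_eq_self]
          rwa [Cardinal.aleph0_le_lift]
  have hosη : ∀ X : Set Ordinal.{u}, os α X ∈ V_ η := fun X =>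
    mem_V_of_sub (y := α.toZFSet) (fun z hz => (ZFSet.mem_sep.1 hz).1) (Gd.ord.2 hαη)
  -- the transfer of `Q`
  have hQ : Q (sv [os α B, κ.toZFSet, δ.toZFSet, p, M.ord.toZFSet, f, os α S, γ.toZFSet]) := by
    show ∀ β ∈ os α B, (∃ ρ ∈ κ.toZFSet, Sm ρ δ.toZFSet p M.ord.toZFSet f γ.toZFSet ∧
      Un β M.ord.toZFSet ρ f) → ∃ ρ ∈ κ.toZFSet, Un β M.ord.toZFSet ρ f ∧
        ∀ i ∈ β, PB M.ord.toZFSet ρ f i → i ∈ os α S
    intro β hβ hex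
    obtain ⟨b, hb1, hb2, rfl⟩ := mem_os.1 hβ
    obtain ⟨_, h1, h2, h3⟩ := hex
    obtain ⟨ρ, hρ, rfl⟩ := mem_toZFSet_iff.1 h1
    have hex' : ∃ ρ' < κ, SM ρ' ∧ UN ρ' b := ⟨ρ, hρ, h2, h3⟩
    obtain ⟨h4, h5, h6⟩ := hr b hex'
    refine ⟨(r b).toZFSet, toZFSet_mem_toZFSet_iff.2 h4, h6, fun i hi hp => ?_⟩
    obtain ⟨i, hi', rfl⟩ := mem_toZFSet_iff.1 hi
    refine ord_mem_os.2 ⟨hi'.trans hb1, ?_⟩
    simp only [S, mem_iUnion]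
    exact ⟨b, hb2, hex', hi', pb_iff.1 hp⟩
  have hmem : ∀ z ∈ [os α B, κ.toZFSet, δ.toZFSet, p, M.ord.toZFSet, f, os α S, γ.toZFSet],
      z ∈ V_ η := by
    simp only [List.mem_cons, List.not_mem_nil, or_false, forall_eq_or_imp, forall_eq]
    exact ⟨hosη B, Gd.ord.2 hs.kη, Gd.ord.2 hj.dlt, hpη, Gd.ord.2 hMη, hs.fη, hosη S,
      Gd.ord.2 hs.γη⟩
  have hQ' : ∀ β ∈ j (os α B), (∃ ρ ∈ j κ.toZFSet, Sm ρ (j δ.toZFSet) (j p)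
      (j M.ord.toZFSet) (j f) (j γ.toZFSet) ∧ Un β (j M.ord.toZFSet) ρ (j f)) →
      ∃ ρ ∈ j κ.toZFSet, Un β (j M.ord.toZFSet) ρ (j f) ∧
        ∀ i ∈ β, PB (j M.ord.toZFSet) ρ (j f) i → i ∈ j (os α S) :=
    (hj.trl (loc_Q hLB) _ hmem).1 hQ
  have hjp : j p = ZFSet.prod (Jo j δ).toZFSet (Jo j γ).toZFSet := by
    rw [hp, hj.prod (Gd.ord.2 hj.dlt) (Gd.ord.2 hs.γη), hj.ord hj.dlt, hj.ord hs.γη]
  rw [hjp, hj.ord hs.kη, hj.ord hj.dlt, hj.ord hs.γη, hj.fix _ hs.mlt] at hQ'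
  -- the points `α*` and `ρ*`
  obtain ⟨s, hs1, hs2, hs3⟩ := supJ hLA hj hαη hlim hcof
  have hK0 : ℵ₀ < κ.cof := by
    have : ω < κ.cof.ord := lt_of_lt_of_le hs.dom hs.kcof
    rwa [Cardinal.lt_ord, Ordinal.card_omega0] at this
  have hKlim : IsSuccLimit κ :=
    (Ordinal.one_lt_cof_iff).1 (Cardinal.one_lt_aleph0.trans hK0)
  obtain ⟨ρ, hρ1, hρ2, hρ3⟩ := supJ hLA hj hs.kη hKlim hs.kcof
  have hXF' := hYF δ η θ j M κ γ f hs ρ hρ2 hρ3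
  -- `α*` is in `j B`
  have hcl : Cl (sv [α.toZFSet, os α B]) := by
    show ∀ x ∈ α.toZFSet, (∃ y ∈ x, y = y) → (∀ y ∈ x, ∃ z ∈ x, y ∈ z ∧ z ∈ os α B) →
      x ∈ os α B
    intro x hx hex hal
    obtain ⟨a, ha, rfl⟩ := mem_toZFSet_iff.1 hx
    refine ord_mem_os.2 ⟨ha, hB.cls a ha ?_ ?_⟩
    · obtain ⟨_, h1, -⟩ := hex
      obtain ⟨b, hb, rfl⟩ := mem_toZFSet_iff.1 h1
      exact lt_of_le_of_lt bot_le hb
    · intro y hy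
      obtain ⟨z, h1, h2, h3⟩ := hal y.toZFSet (toZFSet_mem_toZFSet_iff.2 hy)
      obtain ⟨z, h4, rfl⟩ := mem_toZFSet_iff.1 h1
      exact ⟨z, h4, toZFSet_mem_toZFSet_iff.1 h2, (ord_mem_os.1 h3).2⟩
  have hmem2 : ∀ z ∈ [α.toZFSet, os α B], z ∈ V_ η := by
    simp only [List.mem_cons, List.not_mem_nil, or_false, forall_eq_or_imp, forall_eq]
    exact ⟨Gd.ord.2 hαη, hosη B⟩
  have hcl' : ∀ x ∈ j α.toZFSet, (∃ y ∈ x, y = y) →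
      (∀ y ∈ x, ∃ z ∈ x, y ∈ z ∧ z ∈ j (os α B)) → x ∈ j (os α B) :=
    (hj.trl loc_Cl _ hmem2).1 hcl
  have hα0 : 0 < α := hlim.bot_lt
  have hsB : s.toZFSet ∈ j (os α B) := by
    refine hcl' _ ?_ ⟨(0 : Ordinal.{u}).toZFSet, ?_, rfl⟩ ?_
    · rw [hj.ord hαη]
      exact toZFSet_mem_toZFSet_iff.2 hs1
    · refine toZFSet_mem_toZFSet_iff.2 ?_
      have := hs2 0 hα0
      rwa [hj.Jo_zero] at this
    · intro y hy
      obtain ⟨y, hy', rfl⟩ := mem_toZFSet_iff.1 hy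
      obtain ⟨ξ, h1, h2⟩ := hs3 y hy'
      obtain ⟨β, h3, h4, h5⟩ := hB.unb ξ h1
      refine ⟨(Jo j β).toZFSet, toZFSet_mem_toZFSet_iff.2 (hs2 β h3),
        toZFSet_mem_toZFSet_iff.2 (h2.trans (J_lt hj h4 (h3.trans hαη))), ?_⟩
      rw [← hj.ord (h3.trans hαη), ← hj.mem (Gd.ord.2 (h3.trans hαη)) (hosη B)]
      exact ord_mem_os.2 ⟨h3, h5⟩
  -- the hypothesis of `Q` at `α*`
  obtain ⟨_, h1, hun, hsub⟩ := hQ' _ hsB ⟨ρ.toZFSet, toZFSet_mem_toZFSet_iff.2 hρ1, by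
    refine ⟨γ.toZFSet, toZFSet_mem_toZFSet_iff.2 (hs.γη.trans hj.Jo_crit),
      rs γ (Jo j γ) fun a b => b = Jo j a, ?_, ?_⟩
    · intro z hz
      obtain ⟨a, ha, b, hb, -, rfl⟩ := mem_rs.1 hz
      exact ZFSet.pair_mem_prod.2 ⟨toZFSet_mem_toZFSet_iff.2
        (ha.trans (hs.γη.trans hj.Jo_crit)), toZFSet_mem_toZFSet_iff.2 hb⟩
    · intro i hi hpb
      obtain ⟨i, hi', rfl⟩ := mem_toZFSet_iff.1 hi
      obtain ⟨i0, h1, rfl⟩ := (hXF' i hi').1 (pb_iff.1 hpb)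
      refine ⟨i0.toZFSet, toZFSet_mem_toZFSet_iff.2 h1, pair_mem_rs.2 ⟨h1, hi', rfl⟩, ?_⟩
      intro i' hi' h2
      obtain ⟨i', h3, rfl⟩ := mem_toZFSet_iff.1 hi'
      rw [(pair_mem_rs.1 h2).2.2], by
    intro z hz
    obtain ⟨z, hz', rfl⟩ := mem_toZFSet_iff.1 hz
    obtain ⟨ξ, h1, h2⟩ := hs3 z hz'
    refine ⟨(Jo j ξ).toZFSet, toZFSet_mem_toZFSet_iff.2 (hs2 ξ h1),
      toZFSet_mem_toZFSet_iff.2 h2, pb_iff.2 ?_⟩
    have h3 : ξ < γ := h1.trans_le hαγ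
    exact (hXF' _ (J_lt hj h3 hs.γη)).2 ⟨ξ, h3, rfl⟩⟩
  obtain ⟨r', hr', rfl⟩ := mem_toZFSet_iff.1 h1
  refine ⟨S, {i | i < s ∧ Pos M.ord r' (fib (j f) i)}, hSα, ?_, ?_, ?_, ?_⟩
  · have h2 := hDA 0 1 (fun a w => ZFSet.pair a.toZFSet (w 2).toZFSet ∈ j f)
      (DO.s2 (X := fun a b => ZFSet.pair a.toZFSet b.toZFSet ∈ j f) (OD.dr hs.odj) 0 3)
    have h3 := DO.sub (R := fun m w => Pos m (w 0)
      {a | ZFSet.pair a.toZFSet (w 1).toZFSet ∈ j f}) M.ord h2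
    have h4 := DO.sub (R := fun r w => Pos M.ord r
      {a | ZFSet.pair a.toZFSet (w 0).toZFSet ∈ j f}) r' h3
    exact (DO.ltc 0 s).and h4
  · refine cov_iff.2 ?_
    rwa [Cardinal.card_ord]
  · intro ξ hξ
    obtain ⟨_, h2, h3, h4⟩ := hun _ (toZFSet_mem_toZFSet_iff.2 (hs2 ξ hξ))
    obtain ⟨i, hi, rfl⟩ := mem_toZFSet_iff.1 h2
    obtain ⟨ζ, h5, h6⟩ := hs3 i hi
    have h7 := toZFSet_mem_toZFSet_iff.1 h3
    refine ⟨ζ, h5, ?_, i, ⟨hi, pb_iff.1 h4⟩, h7.le, h6⟩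
    exact (hj.lt_iff (hξ.trans hαη) (h5.trans hαη)).1 (h7.trans h6)
  · rintro ξ hξ ζ hζ ⟨x, ⟨hx1, hx2⟩, hx3, hx4⟩
    have hmem3 : ∀ z ∈ [os α S, ξ.toZFSet, ζ.toZFSet], z ∈ V_ η := by
      simp only [List.mem_cons, List.not_mem_nil, or_false, forall_eq_or_imp, forall_eq]
      exact ⟨hosη S, Gd.ord.2 (hξ.trans hαη), Gd.ord.2 (hζ.trans hαη)⟩
    have h2 : ∃ y ∈ os α S, ¬ y ∈ ξ.toZFSet ∧ y ∈ ζ.toZFSet := by
      refine (hj.trl loc_In _ hmem3).2 ?_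
      show ∃ y ∈ j (os α S), ¬ y ∈ j ξ.toZFSet ∧ y ∈ j ζ.toZFSet
      refine ⟨x.toZFSet, hsub _ (toZFSet_mem_toZFSet_iff.2 hx1) (pb_iff.2 hx2), ?_, ?_⟩
      · rw [hj.ord (hξ.trans hαη), toZFSet_mem_toZFSet_iff]
        exact not_lt.2 hx3
      · rw [hj.ord (hζ.trans hαη), toZFSet_mem_toZFSet_iff]
        exact hx4
    obtain ⟨_, h3, h4, h5⟩ := h2
    obtain ⟨y, -, h6, rfl⟩ := mem_os.1 h3
    rw [toZFSet_mem_toZFSet_iff] at h4 h5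
    exact ⟨y, h6, not_lt.1 h4, h5⟩

end Pool.Agent.H2.HD.YI
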