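import Pool.Agent.H7.HD.Targets6

/-!
# MP_e37c09_lc, module GZ: the definable family of the least closed cofinal sets
-/

open Ordinal Cardinal Order Set
open scoped ZFSet

universe u

namespace Pool.Agent.H2.HD.GZ

open _root_.HD

/-- a cardinality bound gives a surjection -/
theorem exists_sj (K : Cardinal.{u}) (lam : Ordinal.{u}) (h0 : 0 < lam) (h : lam < (succ K).ord) :
    ∃ f, Sj K lam f := by
  have h1 : lam.card ≤ K := by
    rw [← Order.lt_succ_iff]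
    exact Cardinal.lt_ord.1 h
  have h2 : #(Iio lam) ≤ #(Iio K.ord) := by
    rw [Cardinal.mk_Iio_ordinal, Cardinal.mk_Iio_ordinal, Cardinal.card_ord, Cardinal.lift_le]
    exact h1
  obtain ⟨ι⟩ := h2
  classical
  refine ⟨fun x => if hx : ∃ y : Iio lam, (ι y : Ordinal.{u}) = x then (hx.choose : Ordinal.{u})
    else 0, fun x _ => ?_, fun z hz => ?_⟩
  · split_ifs with hx
    · exact hx.choose.2
    · exact h0
  · refine ⟨ι ⟨z, hz⟩, (ι ⟨z, hz⟩).2, ?_⟩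
    have hx : ∃ y : Iio lam, (ι y : Ordinal.{u}) = ι ⟨z, hz⟩ := ⟨_, rfl⟩
    rw [dif_pos hx]
    have h3 : ι hx.choose = ι ⟨z, hz⟩ := Subtype.ext hx.choose_spec
    have h4 := ι.injective h3
    rw [h4]

theorem gz (hQE : T_QE.{u}) (hQK : T_QK.{u}) (hLS : T_LS.{u}) (hME : T_ME.{u}) (hNF : T_NF.{u})
    (hTR : T_TR.{u}) (hDZ : T_DZ.{u}) : T_GZ.{u} := by
  intro M K lam τ g hM hℵ hMK hK hcof hKl hlK hτ hg
  have hℵK : ℵ₀ < K := hℵ.trans hMK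
  obtain ⟨q, e, m, hQ⟩ := hQE
  obtain ⟨n, hn⟩ := hNF K lam hK hℵK hcof
  obtain ⟨f, hf⟩ := exists_sj K lam (lt_of_le_of_lt zero_le hKl) hlK
  obtain ⟨C, hC, hCm⟩ := hME K lam q e m f n hK hℵK hKl.le hQ.em hf hn
  obtain ⟨htr, hcf⟩ := hTR K M lam n hK hℵK hM hn
  -- the key fact
  have key : ∀ γ, γ ∈ C → γ < K.ord → Cf M.ord γ →
      Mb K.ord q e m (n γ) (Zs K.ord q e m (n γ)) ∧ Zs K.ord q e m (n γ) ⊆ f '' Iio γ := by
    intro γ hγC hγK hγM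
    have hγc : γ.cof = M := by
      have h1 : γ.cof.ord = M.ord := hγM
      exact Cardinal.ord_injective h1
    have hlim : IsSuccLimit γ := by
      rw [← Ordinal.one_lt_cof_iff, hγc]
      exact Cardinal.one_lt_aleph0.trans hℵ
    have hmb := hCm γ hγC hγK (by rw [hγc]; exact hℵ)
    have hνc : (n γ).cof = M := by rw [hcf γ hγK hlim, hγc]
    refine ⟨?_, fun z hz => hz.2 _ hmb⟩
    refine hLS K.ord q e m (n γ) τ g hQ.em (by rw [hνc]; exact hℵ) (by rw [hνc]; exact hτ) ?_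
      ⟨_, hmb⟩
    intro b hb hbn
    exact hg _ (hQK q e m hQ K lam b hb (hbn.trans (hn.lt γ hγK)))
  have posC : ∀ X, Pos M.ord lam X → ∃ γ < K.ord, γ ∈ C ∧ n γ ∈ X ∧ Cf M.ord γ := by
    intro X hX
    obtain ⟨γ, h1, h2, h3, h4⟩ := (htr X).1 hX C hC
    exact ⟨γ, h1, h2, h3, h4⟩
  refine ⟨fun b z => z ∈ Zs K.ord q e m b, ⟨hDZ K.ord q e m hQ, ?_, ?_, ?_⟩⟩
  · intro hP
    obtain ⟨γ, hγK, hγC, hγX, hγM⟩ := posC _ hP
    apply hγX
    refine ⟨γ, hγK, f, fun x hx => ?_⟩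
    obtain ⟨a, ha, hax⟩ := (key γ hγC hγK hγM).2 hx
    exact ⟨a, ha, hax⟩
  · intro hP
    obtain ⟨γ, hγK, hγC, ⟨y, hy, hyz⟩, hγM⟩ := posC _ hP
    obtain ⟨z, hz, hyz'⟩ := (key γ hγC hγK hγM).1.cf y hy
    exact absurd (hyz z hz) (not_le.2 hyz')
  · intro g0 S hS hgS
    have hS' : Pos M.ord K.ord {γ | n γ ∈ S} := (htr S).1 hS
    have hKc : K.ord.cof = K := hK.cof_ord
    have hCn : ¬ Pos M.ord K.ord Cᶜ := by
      intro h
      obtain ⟨b, -, h1, h2, -⟩ := h C hC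
      exact h2 h1
    have hT := pos_diff HD.All.va (by rw [hKc]; exact hℵK) hS' hCn
    set T : Set Ordinal.{u} := {γ | n γ ∈ S ∧ γ ∈ C ∧ γ < K.ord ∧ Cf M.ord γ} with hTdef
    have hTP : Pos M.ord K.ord T := hT.mono fun b hb hb1 hb2 =>
      ⟨hb1.1, not_not.1 hb1.2, hb, hb2⟩
    have hh : ∀ γ, ∃ x, γ ∈ T → x < γ ∧ f x = g0 (n γ) := by
      intro γ
      by_cases hγ : γ ∈ T
      · obtain ⟨h1, h2, h3, h4⟩ := hγ
        obtain ⟨x, hx, hxe⟩ := (key γ h2 h3 h4).2 (hgS (n γ) h1 (hn.lt γ h3))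
        exact ⟨x, fun _ => ⟨hx, hxe⟩⟩
      · exact ⟨0, fun h => absurd h hγ⟩
    choose h hh using hh
    obtain ⟨a, haK, ha⟩ := HD.All.vd M.ord K hK hℵK T h hTP fun b hb _ _ => (hh b hb).1
    refine ⟨f a, hf.lt a haK, (htr _).2 ?_⟩
    refine ha.mono fun b _ hb _ => ?_
    obtain ⟨hbT, hba⟩ := hb
    refine ⟨hbT.1, ?_⟩
    rw [← hba]
    exact (hh b hbT).2.symm

end Pool.Agent.H2.HD.GZ
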